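import Pool.Agent.TH432.RP.RigidMain

/-!
# The round metric is the only systolically optimal `O(k) × O(m)`-invariant metric on `RP^{k+m-1}`

Let `k, m ≥ 2`, `d = k + m - 1`.  The lift to `S^d ⊂ ℝ^k × ℝ^m` of an `O(k) × O(m)`-invariant smooth
Riemannian metric of `RP^d` is `g = dr² + f(r)² g_{S^{k-1}} + h(r)² g_{S^{m-1}}`, `0 ≤ r ≤ L`
(`IsProfile2 L f h`).  Its volume on `RP^d` is `c ∫₀^L f^{k-1} h^{m-1} dr` and that of the standard metric
`g₀` (`L = π/2`, `f = sin`, `h = cos`) is `c ∫₀^{π/2} sin^{k-1} cos^{m-1} dt`, with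
`c = vol(S^{k-1}) vol(S^{m-1}) / 2`.  If the systolic ratio of `g` is at most that of `g₀` then `g` is
`R² g₀` for some `R > 0`.
-/

open Real Set MeasureTheory

namespace Pool.Agent.Results.MP_b75b84_gt.ProjectiveRigidity

open Pool.Agent.TH432.RP
open Pool.Agent.H206R2.Rot2 (IsProfile2)

theorem result :
    ∀ (k m : ℕ) (L : ℝ) (f h : ℝ → ℝ), 2 ≤ k → 2 ≤ m → IsProfile2 L f h →
      ENNReal.ofReal (π ^ (k + m - 1) * ∫ r in (0 : ℝ)..L, f r ^ (k - 1) * h r ^ (m - 1)) ≤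
          systole k m L f h ^ (k + m - 1) * ENNReal.ofReal
            (∫ t in (0 : ℝ)..π / 2, Real.sin t ^ (k - 1) * Real.cos t ^ (m - 1)) →
        ∃ R : ℝ, 0 < R ∧ L = R * (π / 2) ∧
          ∀ r ∈ Icc 0 L, f r = R * Real.sin (r / R) ∧ h r = R * Real.cos (r / R) :=
  fun _ _ _ _ _ hk hm hf => rigid_main hk hm hf

end Pool.Agent.Results.MP_b75b84_gt.ProjectiveRigidity
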