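import Pool.Agent.TH432.WT.Main

/-!
# Flat tori are systolically optimal among warped products

On the torus `(ℝ/ℤ)^p × ∏ j, V j / Λ j` consider the metric
`‖∑ i, dx i • b i‖² + ∑ j, f j(x)² ‖dθ j + ∑ i, dx i • A j(x) i‖²` (`f j > 0` and `A j` continuous on
`(ℝ/ℤ)^p`), where `p = 1`, or there is one `j` only and `A j` is constant, or there is one `j` only and
`V j` is a line.  There are constants `a j` and `B j` such that the flat metric
`‖∑ i, dx i • b i‖² + ∑ j, a j² ‖dθ j + ∑ i, dx i • B j i‖²` on the same torus has at least the same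
systole and at most the same volume; the volumes are equal only if all `f j` are constant.
-/

open Real Set MeasureTheory

namespace Pool.Agent.Results.MP_b75b84_gt.WarpedTori

open Pool.Agent.TH432.WT

theorem result :
    ∀ (p : ℕ) (ι : Type) [Fintype ι] (E : Type) [NormedAddCommGroup E] [InnerProductSpace ℝ E]
      (V : ι → Type) [∀ j, NormedAddCommGroup (V j)] [∀ j, InnerProductSpace ℝ (V j)]
      [∀ j, FiniteDimensional ℝ (V j)] (b : Fin p → E) (Λ : ∀ j, AddSubgroup (V j))
      (f : ι → UnitAddTorus (Fin p) → ℝ) (A : ∀ j, UnitAddTorus (Fin p) → Fin p → V j),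
      (∀ j, Continuous (f j)) → (∀ j y, 0 < f j y) → (∀ j, Continuous (A j)) →
      (p = 1 ∨ Subsingleton ι ∧
        ((∀ j y y', A j y = A j y') ∨ ∀ j, Module.finrank ℝ (V j) = 1)) →
      ∃ (a : ι → ℝ) (B : ∀ j, Fin p → V j), (∀ j, 0 < a j) ∧
        sys b Λ f A ≤ sys b Λ (fun j _ => a j) (fun j _ => B j) ∧
        vol V (fun j (_ : UnitAddTorus (Fin p)) => a j) ≤ vol V f ∧
        ((∀ j, 0 < Module.finrank ℝ (V j)) →
          vol V (fun j (_ : UnitAddTorus (Fin p)) => a j) = vol V f → ∀ j y, f j y = a j) :=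
  fun _ _ _ _ _ _ _ _ _ _ b Λ f A hf hpos hA H =>
    ⟨fun j => hm (f j), fun j => av (A j), fun j => hm_pos (hf j) (hpos j),
      main b Λ hf hpos hA H, (vol_le hf hpos).1, (vol_le hf hpos).2⟩

end Pool.Agent.Results.MP_b75b84_gt.WarpedTori
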